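import Pool.Agent.Helper38.XF.Spec2

/-!
# Swarm XG, part PCS: iterated `p`-components in the ultrapower
-/

set_option autoImplicit false

namespace Pool.Agent.Helper33.XG.PCS

open Pool.Agent.Helper38.XF Filter

variable {K : Type} [Field K]

/-- germs of functions, as a ring homomorphism -/
noncomputable def R : (ℕ → K) →+* UP K :=
  Filter.Germ.coeRingHom (Filter.hyperfilter ℕ : Filter ℕ)

theorem pc_spec {p : ℕ} {L : Type} [Field L] {t : L} (h : PBas p L t) (x : L) :
    x = ∑ i : Fin p, pc h i x ^ p * t ^ (i : ℕ) := (h.1 x).choose_spec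

theorem pc_germ (p : ℕ) [Fact p.Prime] [CharP K p] (t : K) (h : PBas p K t)
    (h' : PBas p (UP K) (t : UP K)) (i : Fin p) (f : ℕ → K) :
    pc h' i (f : UP K) = ((fun n => pc h i (f n) : ℕ → K) : UP K) := by
  haveI : CharP (UP K) p := charP_of_injective_ringHom
    (f := (R (K := K)).comp (Pi.constRingHom ℕ K)) (RingHom.injective _) p
  have h1 : (f : UP K) = ∑ i : Fin p, pc h' i (f : UP K) ^ p * (t : UP K) ^ (i : ℕ) :=
    pc_spec h' _
  have h2 : (f : UP K) =
      ∑ i : Fin p, ((fun n => pc h i (f n) : ℕ → K) : UP K) ^ p * (t : UP K) ^ (i : ℕ) := by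
    have e : f = ∑ i : Fin p, (fun n => pc h i (f n) : ℕ → K) ^ p * (fun _ => t) ^ (i : ℕ) := by
      funext n
      rw [Finset.sum_apply]
      exact pc_spec h (f n)
    calc (f : UP K) = R f := rfl
      _ = R (∑ i : Fin p, (fun n => pc h i (f n) : ℕ → K) ^ p * (fun _ => t) ^ (i : ℕ)) := by
          rw [← e]
      _ = _ := by
          rw [map_sum]
          refine Finset.sum_congr rfl fun i _ => ?_
          rw [map_mul, map_pow, map_pow]
          rfl
  have h3 : ∑ i : Fin p, (pc h' i (f : UP K) - ((fun n => pc h i (f n) : ℕ → K) : UP K)) ^ p *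
      (t : UP K) ^ (i : ℕ) = 0 := by
    have : ∀ i : Fin p, (pc h' i (f : UP K) - ((fun n => pc h i (f n) : ℕ → K) : UP K)) ^ p *
        (t : UP K) ^ (i : ℕ) = pc h' i (f : UP K) ^ p * (t : UP K) ^ (i : ℕ) -
          ((fun n => pc h i (f n) : ℕ → K) : UP K) ^ p * (t : UP K) ^ (i : ℕ) := by
      intro i
      rw [sub_pow_char, sub_mul]
    simp only [this]
    rw [Finset.sum_sub_distrib, ← h1, ← h2, sub_self]
  exact sub_eq_zero.1 (h'.2 _ h3 i)

theorem main : St_PCS := by
  intro p _ K _ _ t h h' l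
  induction l with
  | nil => intro f; rfl
  | cons i l ih =>
    intro f
    show pcs h' l (pc h' i (f : UP K)) = _
    rw [pc_germ p t h h' i f, ih]
    rfl

end Pool.Agent.Helper33.XG.PCS
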